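import Pool.Agent.Lib_MP_fb7530_co.Final2

/-!
# Q1 is false: the ratio of the semisaturation number and of the smallest minimum degree does not
# tend to zero

For every `r ≥ 2` and all `k ≥ C r^15` we have `s_r(K_{k+1}) ≤ C r² k²`, and so the ratio
`ssat_r(K_{k+1}) / s_r(K_{k+1})` is at least `1 / (C r)`.
-/

namespace Pool.Agent.Results.MP_fb7530_co.BoundedRatio

open FB7530 Filter Topology

theorem result :
    (∃ C : ℕ, 0 < C ∧ ∀ r k : ℕ, 2 ≤ r → C * r ^ 15 ≤ k →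
      0 < P r k ∧ P r k ≤ C * r ^ 2 * k ^ 2 ∧ r * k ^ 2 ≤ 2 * ssat r k ∧
      1 / ((C : ℝ) * r) ≤ (ssat r k : ℝ) / (P r k : ℝ)) ∧
    ¬ ∀ r : ℕ → ℕ, (∀ k, 3 ≤ r k) →
      Tendsto (fun k => (ssat (r k) k : ℝ) / (P (r k) k : ℝ)) atTop (𝓝 0) :=
  ⟨main2, not_Q1⟩

end Pool.Agent.Results.MP_fb7530_co.BoundedRatio
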